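import Mathlib
import Pool.Agent.Lib.MP_cc2426_co.All

set_option autoImplicit false

namespace Pool.Agent.Results.MP_cc2426_co.FullOne

open Finset Pool.Agent.Lib.MP_cc2426_co

/-- Four edge-disjoint perfect matchings, `a` with sum exactly `n - 1` and one entry equal to `1`:
there is a matching with exactly `a i` edges of colour `i`. -/
theorem result (n : ℕ) (σ : Fin 4 → Equiv.Perm (Fin n))
    (hd : ∀ i j, i ≠ j → ∀ x, σ i x ≠ σ j x) (a : Fin 4 → ℕ) (hs : (∑ i, a i) + 1 = n)
    (p : Fin 4) (hp : a p = 1) :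
    ∃ S : Finset (Fin n), ∃ c : Fin n → Fin 4,
      Set.InjOn (fun x => σ (c x) x) (S : Set (Fin n)) ∧
      ∀ i : Fin 4, (S.filter (fun x => c x = i)).card = a i := by
  obtain ⟨S, c, h1, h2⟩ := All.main (Fin n) (fun i => σ (Equiv.swap p 3 i))
    (fun i j h => hd _ _ (fun e => h ((Equiv.swap p 3).injective e)))
    (fun i => a (Equiv.swap p 3 i))
    (by rw [Equiv.sum_comp (Equiv.swap p 3) a, Fintype.card_fin]; exact hs)
    (by rw [Equiv.swap_apply_right]; exact hp)
  refine ⟨S, fun x => Equiv.swap p 3 (c x), h1, fun i => ?_⟩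
  have := h2 (Equiv.swap p 3 i)
  simp only [Equiv.swap_apply_self] at this
  rw [← this]
  congr 1
  exact filter_congr (fun x _ => Equiv.swap_apply_eq_iff)

end Pool.Agent.Results.MP_cc2426_co.FullOne
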