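import Mathlib
import Pool.Agent.Lib.MP_cc2426_co.Core

set_option autoImplicit false

namespace Pool.Agent.Results.MP_cc2426_co.NearPerfect

open Finset Pool.Agent.Lib.MP_cc2426_co

/-- For `k ≥ 3` perfect matchings of a bipartite (multi)graph with `n + n` vertices and any
`a` with sum at most `n - k + 2` there is a matching with exactly `a i` edges of colour `i`.
For four colours the bound is `n - 2`. -/
theorem result (k n : ℕ) (hk : 3 ≤ k) (σ : Fin k → Equiv.Perm (Fin n)) (a : Fin k → ℕ)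
    (ha : (∑ i, a i) + k ≤ n + 2) :
    ∃ S : Finset (Fin n), ∃ c : Fin n → Fin k,
      Set.InjOn (fun x => σ (c x) x) (S : Set (Fin n)) ∧
      ∀ i : Fin k, (S.filter (fun x => c x = i)).card = a i := by
  obtain ⟨r, rfl⟩ : ∃ r, k = r + 3 := ⟨k - 3, by omega⟩
  let G : Sys (Fin n × Fin (r + 3)) (Fin n) (Fin n) (Fin (r + 3)) :=
    ⟨fun e => e.1, fun e => σ e.2 e.1, fun e => e.2, fun c x => (x, c),
      fun c y => ((σ c).symm y, c), fun _ _ => rfl, fun _ _ => rfl, fun _ => rfl,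
      fun c y => by simp, fun _ _ => rfl, fun e => by simp⟩
  obtain ⟨N, h1, h2⟩ := Sys.fill (S := G) (A := univ) (X := univ) (XR := univ) (r := r + 1)
    ⟨fun _ _ _ _ => mem_univ _, fun _ _ _ _ => mem_univ _⟩ rfl
    (fun M t b1 b2 b3 b4 b5 => Sys.core r univ (by simp) _ _ M t b1 b2 b3 b4 b5)
    (∑ i, a i) (fun i => a i) (fun i => by simp) (fun k hk => absurd (mem_univ k) hk)
    (by push_cast; rfl) (by simp; omega)
  have hc : ∀ x : Fin n, ∃ c : Fin (r + 3), ∀ e ∈ N, e.1 = x → e = (x, c) := by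
    intro x
    by_cases h : ∃ e ∈ N, e.1 = x
    · obtain ⟨e, he, rfl⟩ := h
      exact ⟨e.2, fun f hf hh => h1.1.l f hf e he hh⟩
    · exact ⟨0, fun e he hh => absurd ⟨e, he, hh⟩ h⟩
  choose c hc using hc
  have mem : ∀ x ∈ N.image Prod.fst, (x, c x) ∈ N := by
    intro x hx
    obtain ⟨e, he, rfl⟩ := mem_image.1 hx
    exact hc _ e he rfl ▸ he
  refine ⟨N.image Prod.fst, c, ?_, ?_⟩
  · intro x hx y hy h
    exact congrArg Prod.fst (h1.1.r _ (mem x hx) _ (mem y hy) h)
  · intro i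
    have h3 := congrFun h2 i
    rw [Sys.vec_apply] at h3
    have h4 : (N.filter (fun e => G.col e = i)).card = a i := by exact_mod_cast h3
    rw [← h4]
    symm
    apply card_bij (fun e _ => e.1)
    · intro e he
      obtain ⟨e1, e2⟩ := mem_filter.1 he
      refine mem_filter.2 ⟨mem_image_of_mem _ e1, ?_⟩
      rw [← e2, hc _ e e1 rfl]
    · intro e he f hf h
      exact h1.1.l e (mem_filter.1 he).1 f (mem_filter.1 hf).1 h
    · intro x hx
      obtain ⟨e1, e2⟩ := mem_filter.1 hx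
      exact ⟨(x, c x), mem_filter.2 ⟨mem x e1, e2⟩, rfl⟩

end Pool.Agent.Results.MP_cc2426_co.NearPerfect
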