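import Mathlib
import Pool.Agent.Lib.MP_cc2426_co.Vertex

set_option autoImplicit false

namespace Pool.Agent.Results.MP_cc2426_co.NearVertex

open Finset

/-- For `k` perfect matchings of a bipartite (multi)graph with `n + n` vertices, `a` with sum
exactly `n - 1` and a colour `b` such that `a(T) * (1 + a(T')) < n` for every split `T`, `T'` of
the other colours, there is a matching with exactly `a i` edges of colour `i`. -/
theorem result (k n : ℕ) (σ : Fin k → Equiv.Perm (Fin n)) (a : Fin k → ℕ) (b : Fin k)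
    (hs : (∑ i, a i) + 1 = n)
    (hT : ∀ T : Finset (Fin k), b ∉ T → (∑ i ∈ T, a i) * (1 + ∑ i ∈ (insert b T)ᶜ, a i) < n) :
    ∃ S : Finset (Fin n), ∃ c : Fin n → Fin k,
      Set.InjOn (fun x => σ (c x) x) (S : Set (Fin n)) ∧
      ∀ i : Fin k, (S.filter (fun x => c x = i)).card = a i := by
  obtain ⟨S, c, h1, h2⟩ := Pool.Agent.Lib.MP_cc2426_co.Vertex.main
    (fun i => (σ b)⁻¹ * σ i) b (inv_mul_cancel _) a (by simpa using hs) (by simpa using hT)
  refine ⟨S, c, fun x hx y hy h => h1 hx hy ?_, h2⟩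
  exact congrArg (fun z => (σ b)⁻¹ z) h

end Pool.Agent.Results.MP_cc2426_co.NearVertex
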