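import Mathlib
import Pool.Agent.Lib.MP_cc2426_co.Short

set_option autoImplicit false

namespace Pool.Agent.Results.MP_cc2426_co.ShortCycles

open Finset

/-- `k` perfect matchings of a bipartite (multi)graph with `n + n` vertices, `a` with sum exactly
`n - 1`, two colours `i`, `j` all of whose two-coloured cycles have at most `m` left vertices,
`s` the sum of the other entries: if `s * m ≤ a i`, `s * m ≤ a j` and `4 (s + 1) m + s ^ 2 ≤ 4 n`
there is a matching with exactly `a t` edges of colour `t`. -/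
theorem result (k n m : ℕ) (σ : Fin k → Equiv.Perm (Fin n)) (a : Fin k → ℕ) (i j : Fin k)
    (hij : i ≠ j) (hs : (∑ t, a t) + 1 = n)
    (hm : ∀ x : Fin n, Function.minimalPeriod ((σ i)⁻¹ * σ j : Equiv.Perm (Fin n)) x ≤ m)
    (hi : (∑ t ∈ ({i, j} : Finset (Fin k))ᶜ, a t) * m ≤ a i)
    (hj : (∑ t ∈ ({i, j} : Finset (Fin k))ᶜ, a t) * m ≤ a j)
    (hn : 4 * ((∑ t ∈ ({i, j} : Finset (Fin k))ᶜ, a t) + 1) * m +
      (∑ t ∈ ({i, j} : Finset (Fin k))ᶜ, a t) ^ 2 ≤ 4 * n) :
    ∃ S : Finset (Fin n), ∃ c : Fin n → Fin k,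
      Set.InjOn (fun x => σ (c x) x) (S : Set (Fin n)) ∧
      ∀ t : Fin k, (S.filter (fun x => c x = t)).card = a t := by
  have e : (univ.erase i).erase j = ({i, j} : Finset (Fin k))ᶜ := by
    ext t
    simp [and_comm]
  obtain ⟨S, c, h1, h2⟩ := Pool.Agent.Lib.MP_cc2426_co.Short.main
    (π := fun t => (σ i)⁻¹ * σ t) (α := i) (β := j) (inv_mul_cancel _) hij (a := a) hm
    (by rw [e]) (by simpa using hs) hi hj (by rw [Fintype.card_fin, ← mul_assoc, ← sq]; exact hn)
  exact ⟨S, c, fun x hx y hy h => h1 hx hy (congrArg (fun z => (σ i)⁻¹ z) h), h2⟩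

end Pool.Agent.Results.MP_cc2426_co.ShortCycles
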